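import Pool.Agent.MP_09973c_nt.H43.IPa

/-!
Varying entry points force the two tails to merge.
-/

set_option autoImplicit false

namespace Pool.Agent.MP_09973c_nt.H43

open Polynomial Filter IntermediateField Pool.Agent.MP_09973c_nt.H58

variable {p q : ℕ} {a b : Qb} {U : Ultrafilter ℕ} {D : ℕ → Dat p q a} {D' : ℕ → Dat p q b}
  {o o' : ℕ} {C₁ : ℝ}

theorem orb_large (hp : 0 < p) (hpq : p < q)
    (hv : ∀ x, ∀ᶠ ν in (U : Filter ℕ), (D ν).u 0 ≠ x) {G : Subgroup Gal} (hG : G.index ≠ 0)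
    (W : ℕ) : ∀ᶠ ν in (U : Filter ℕ), W < (orb G ((D ν).u 0)).ncard := by
  obtain ⟨d, hd, H, -, ha⟩ := exists_Sz a
  refine (U.em _).resolve_right fun h => ?_
  obtain ⟨y, -, hy⟩ := const_of_finite (northcott hG W hd (1 + H)) (f := fun ν => (D ν).u 0)
    (h.mono fun ν hν => ⟨not_lt.1 hν, (D ν).u_Sz hp hpq ha 0⟩)
  obtain ⟨ν, h1, h2⟩ := (hy.and (hv y)).exists
  exact h2 h1

theorem tr_u0 (hv : ∀ x, ∀ᶠ ν in (U : Filter ℕ), (D ν).u 0 ≠ x) :
    Transcendental Qb (gm U fun ν => (D ν).u 0) := fun h => by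
  obtain ⟨y, hy⟩ := const_of_alg h
  obtain ⟨ν, h1, h2⟩ := (hy.and (hv y)).exists
  exact h2 h1

/-- Some conjugate of the tail grows quickly from level `α₁` on. -/
theorem growth (hE : ESCStmt) (hp : 2 ≤ p) (hpq : p < q) (hc : p.Coprime q) (ha : a ≠ 0)
    (hv : ∀ x, ∀ᶠ ν in (U : Filter ℕ), (D ν).u 0 ≠ x)
    (hl : ∀ J, ∀ᶠ ν in (U : Filter ℕ), J ≤ (D ν).n) (C₁ : ℝ) :
    ∃ α₁ : ℕ, ∀ᶠ ν in (U : Filter ℕ), ∃ g : Gal, ∀ i, α₁ ≤ i → i ≤ (D ν).n →
      (∀ i', lp (g ((D ν).u i')) + |C₁| < lp (g ((D ν).t i))) ∧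
      ∀ i', i < i' → i' ≤ (D ν).n → lp (g ((D ν).t i)) + |C₁| < lp (g ((D ν).t i')) := by
  have hp0 : 0 < p := by omega
  have hp' : (0 : ℝ) < p := by exact_mod_cast hp0
  have hp1 : (1 : ℝ) ≤ p := by exact_mod_cast hp0
  have hq' : (p : ℝ) + 1 ≤ q := by exact_mod_cast hpq
  have hθ : 1 < (q : ℝ) / p := (one_lt_div hp').2 (by linarith)
  obtain ⟨d, hd, H, -, hH⟩ := exists_Sz a
  have hG := GK_index (Nat.mul_pos hp0 (by omega : 0 < q)) a a
  obtain ⟨δ, hδ, h1⟩ := hE p q a _ hp hpq hc ha hG le_rfl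
  obtain ⟨α₁, h2⟩ := pow_unbounded_of_one_lt ((Real.log (1 + H) + p * (|C₁| + 1)) / δ) hθ
  rw [div_lt_iff₀' hδ] at h2
  obtain ⟨m, W, h3⟩ := h1 (1 + H) d α₁ 1 hd
  refine ⟨α₁, ((orb_large hp0 hpq hv hG W).and (hl α₁)).mono fun ν ⟨h4, h5⟩ => ?_⟩
  obtain ⟨g, -, -, h6⟩ := h3 _ _ _ (D ν).hξ (D ν).hξ1 ((D ν).bwd_u m)
    (fun i _ => (D ν).u_Sz hp0 hpq hH i) (D ν).ht0 (fun k hk => (D ν).ht k (hk.trans_le h5)) h4
  refine ⟨g 0, fun i hi hi' => ?_⟩
  have key : ∀ j k, j + k ≤ (D ν).n → ((q : ℝ) / p) ^ k * (lp (g 0 ((D ν).t j)) -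
      Real.log (1 + H)) ≤ lp (g 0 ((D ν).t (j + k))) - Real.log (1 + H) := fun j k hjk =>
    esc_low hp0 hpq (hH.2 (g 0)) (((D ν).ht.map (g 0 : Qb →+* Qb)).shift hjk) k le_rfl
  have hC := abs_nonneg C₁
  have h7 : p * (|C₁| + 1) ≤ lp (g 0 ((D ν).t i)) - Real.log (1 + H) := by
    have h8 := key α₁ (i - α₁) (by omega)
    rw [Nat.add_sub_cancel' hi] at h8
    have h9 : p * (|C₁| + 1) ≤ lp (g 0 ((D ν).t α₁)) - Real.log (1 + H) := by linarith [h6 0]
    exact h9.trans (le_trans (le_mul_of_one_le_left (le_trans (by positivity) h9)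
      (one_le_pow₀ hθ.le)) h8)
  refine ⟨fun i' => ?_, fun i' hii hn => ?_⟩
  · have := cyc_le hp0 hpq (hH.2 (g 0)) (Cyc.map (g 0 : Qb →+* Qb) ((D ν).u_cyc i'))
    simp only [RingHom.coe_coe] at this
    nlinarith
  · have h8 := key i (i' - i) (by omega)
    rw [Nat.add_sub_cancel' hii.le] at h8
    have h9 : (q : ℝ) / p ≤ ((q : ℝ) / p) ^ (i' - i) := le_self_pow₀ hθ.le (by omega)
    have h10 : 1 + 1 / (p : ℝ) ≤ (q : ℝ) / p := by
      rw [le_div_iff₀ hp']; field_simp; linarith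
    have h11 := mul_le_mul_of_nonneg_right (h10.trans h9) (le_trans (by positivity) h7)
    have h12 := mul_le_mul_of_nonneg_left h7 (show (0 : ℝ) ≤ 1 / p by positivity)
    rw [← mul_assoc, one_div_mul_cancel hp'.ne', one_mul] at h12
    linarith

/-- All conjugates of the two sequences have the same size. -/
def Same (U : Ultrafilter ℕ) (f f' : ℕ → Qb) : Prop :=
  ∀ᶠ ν in (U : Filter ℕ), ∀ g : Gal, lp (g (f ν)) = lp (g (f' ν))

theorem Same.symm {f f' : ℕ → Qb} (h : Same U f f') : Same U f' f :=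
  h.mono fun _ hν g => (hν g).symm

theorem same_of_mul (hpq : p < q) {c c' μ : Qb} (hc' : c' ≠ 0) (h1 : μ ^ p * c = c')
    (h2 : μ ^ q * c = c') {f f' : ℕ → Qb} (h : ∀ᶠ ν in (U : Filter ℕ), f ν = μ * f' ν) :
    Same U f f' := by
  have h3 : μ ^ (q - p) = 1 := mul_right_cancel₀ hc' (by
    rw [one_mul]
    nth_rewrite 1 [← h1]
    rw [← mul_assoc, ← pow_add, Nat.sub_add_cancel hpq.le, h2])
  refine h.mono fun ν hν g => ?_
  rw [hν, map_mul, lp_unit_mul (norm_root (M := q - p) (by omega) (by rw [← map_pow, h3, map_one]))]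

/-- The consequences of the growth for merging towers. -/
theorem edges (hE : ESCStmt) (hp : 2 ≤ p) (hpq : p < q) (hc : p.Coprime q) (ha : a ≠ 0)
    (hM : Match U D D' o o' C₁) (hv : ∀ x, ∀ᶠ ν in (U : Filter ℕ), (D ν).u 0 ≠ x) : ∃ α₁ : ℕ,
    (∀ i i', α₁ ≤ i → ¬ Same U (fun ν => (D ν).t i) fun ν => (D ν).u i') ∧
    (∀ i i', α₁ + o' ≤ i → ¬ Same U (fun ν => (D' ν).t i) fun ν => (D ν).u i') ∧
    ∀ i i', α₁ ≤ i → α₁ + o' ≤ i' → Same U (fun ν => (D' ν).t i') (fun ν => (D ν).t i) →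
      i + o' = i' + o := by
  have hl : ∀ J, ∀ᶠ ν in (U : Filter ℕ), J ≤ (D ν).n := fun J => (hM.long J).mono fun _ h => h.1
  obtain ⟨α₁, h⟩ := growth hE hp hpq hc ha hv hl C₁
  have hC := abs_nonneg C₁
  have hC' := le_abs_self C₁
  refine ⟨α₁, fun i i' hi hs => ?_, fun i i' hi hs => ?_, fun i i' hi hi' hs => ?_⟩
  · obtain ⟨ν, ⟨g, h1⟩, h2, h3⟩ := (h.and ((hl i).and hs)).exists
    linarith [(h1 i hi h2).1 i', h3 g]
  · obtain ⟨j, rfl⟩ : ∃ j, i = j + o' := ⟨i - o', by omega⟩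
    obtain ⟨ν, ⟨g, h1⟩, h2, h3, h4⟩ := (h.and ((hl (j + o)).and (hs.and (hM.size j)))).exists
    linarith [(h1 (j + o) (by omega) h2).1 i', h3 g, (abs_le.1 (h4 g)).2]
  · obtain ⟨j, rfl⟩ : ∃ j, i' = j + o' := ⟨i' - o', by omega⟩
    obtain ⟨ν, ⟨g, h1⟩, h2, h3, h4⟩ :=
      (h.and ((hl (i + j + o)).and (hs.and (hM.size j)))).exists
    rcases lt_trichotomy i (j + o) with h5 | h5 | h5
    · linarith [(h1 i hi (by omega)).2 (j + o) h5 (by omega), h3 g, (abs_le.1 (h4 g)).2]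
    · omega
    · linarith [(h1 (j + o) (by omega) (by omega)).2 i h5 (by omega), h3 g, (abs_le.1 (h4 g)).1]

theorem caseA (hH : SzHStmt) (hp : 2 ≤ p) (hpq : p < q) (hc : p.Coprime q) (ha : a ≠ 0)
    (hM : Match U D D' o o' C₁) (hv : ∀ x, ∀ᶠ ν in (U : Filter ℕ), (D ν).u 0 ≠ x) :
    Transcendental Qb (gm U fun ν => (D' ν).u 0) := fun h => by
  have hp0 : 0 < p := by omega
  obtain ⟨j, h1⟩ := hH p q a C₁ hp hpq hc ha
  obtain ⟨ξ, -, hξ⟩ := gm_xi (U := U) hp0 D'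
  obtain ⟨y, hy⟩ := const_of_alg (alg_up (w := fun i => gm U fun ν => (D' ν).t i) hp0
    (isAlgebraic_algebraMap b) (gm_chain (fun J => (hM.long J).mono fun _ h => h.2)
      fun ν => (D' ν).ht) (hξ ▸ (isAlgebraic_algebraMap ξ).mul h) (j + o'))
  have hG : (GK p q a b ⊓ Fix ℚ {y}).index ≠ 0 := Subgroup.index_inf_ne_zero
    (GK_index (Nat.mul_pos hp0 (by omega)) a b) (index_Fix_ne_zero (Set.finite_singleton y))
  obtain ⟨W, h2⟩ := h1 (j + o) (by omega) _ hG (inf_le_left.trans (GK_le_left p q a b))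
  obtain ⟨ν, h3, h4, h5, h6⟩ := ((orb_large hp0 hpq hv hG W).and (hy.and ((hM.size j).and
    (hM.long (j + o))))).exists
  refine h3.not_ge (h2 (D ν) (lp y) h6.1 fun g hg => ?_)
  have := h5 g
  rwa [h4, mem_Fix.1 hg.2 y rfl] at this

theorem caseB (h2 : Sz2Stmt) (hp : 2 ≤ p) (hpq : p < q) (hc : p.Coprime q) (ha : a ≠ 0)
    (hb : b ≠ 0) (hM : Match U D D' o o' C₁) (hv : ∀ x, ∀ᶠ ν in (U : Filter ℕ), (D ν).u 0 ≠ x) :
    IsAlgebraic (adjoin Qb {gm U fun ν => (D ν).u 0}) (gm U fun ν => (D' ν).u 0) := by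
  by_contra h
  refine h2 p q a b hp hpq hc ha hb U D D' o o' C₁ hM fun m P hP =>
    (U.em _).resolve_left fun h0 => h ?_
  have h1 : ev2 (algebraMap Qb (UP U)) P (gm U fun ν => (D ν).u m) (gm U fun ν => (D' ν).u m) = 0 := by
    rw [gm_ev2, ← (gm U).map_zero, gm_eq]; exact h0
  refine alg_down (w := fun i => gm U fun ν => (D' ν).u i) (by omega : 0 < q)
    ((isAlgebraic_algebraMap b).tower_top _) (gm_chain' D') m (alg_of_rel ?_ (fun h3 => ?_) hP h1)
  · exact alg_up (w := fun i => gm U fun ν => (D ν).u i) (by omega : 0 < p)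
      ((isAlgebraic_algebraMap a).tower_top _) (gm_chain' D)
      (isAlgebraic_algebraMap (⟨_, mem_adjoin_simple_self Qb _⟩ : adjoin Qb {_})) m
  · exact tr_u0 hv (alg_down (w := fun i => gm U fun ν => (D ν).u i) (by omega : 0 < q)
      (isAlgebraic_algebraMap a) (gm_chain' D) m h3)

theorem ip (hH : SzHStmt) (h2 : Sz2Stmt) (h1 : Sz1Stmt) (hE : ESCStmt) (hF : FFStmt)
    (hB : MBwdStmt) : IPStmt := by
  intro p q a b hp hpq hc ha hb U D D' o o' C₁ hM hv α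
  by_contra hno
  have hp0 : 0 < p := by omega
  have hA := caseA hH hp hpq hc ha hM hv
  have hV := caseB h2 hp hpq hc ha hb hM hv
  have hU := tr_u0 hv
  obtain ⟨α₁, e01, e02, e12⟩ := edges hE hp hpq hc ha hM hv
  obtain ⟨ξ, hξ0, hξ⟩ := gm_xi (U := U) hp0 D
  obtain ⟨ξ', hξ0', hξ'⟩ := gm_xi (U := U) hp0 D'
  have c0 := gm_chain' (U := U) D
  have c1 := gm_chain (fun J => (hM.long J).mono fun _ h => h.1) fun ν => (D ν).ht
  have c2 := gm_chain (fun J => (hM.long J).mono fun _ h => h.2) fun ν => (D' ν).ht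
  obtain ⟨Ω, _, _, _, e, u, hu, hΩ, hs⟩ := exists_Om (k := Qb) (gm U fun ν => (D ν).u 0)
  have al : ∀ c : Qb, IsAlgebraic (adjoin Qb {gm U fun ν => (D ν).u 0})
      (algebraMap Qb (UP U) c) := fun c => (isAlgebraic_algebraMap c).tower_top _
  have a0 : IsAlgebraic (adjoin Qb {gm U fun ν => (D ν).u 0}) (gm U fun ν => (D ν).u 0) :=
    isAlgebraic_algebraMap (⟨_, mem_adjoin_simple_self Qb _⟩ : adjoin Qb {_})
  obtain ⟨v, hv'⟩ := hs _ hV
  choose uu huu using fun i =>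
    hs _ (alg_up (w := fun i => gm U fun ν => (D ν).u i) hp0 (al a) c0 a0 i)
  choose tt htt using fun i =>
    hs _ (alg_up (w := fun i => gm U fun ν => (D ν).t i) hp0 (al a) c1 (hξ ▸ (al ξ).mul a0) i)
  choose tt' htt' using fun i =>
    hs _ (alg_up (w := fun i => gm U fun ν => (D' ν).t i) hp0 (al b) c2 (hξ' ▸ (al ξ').mul hV) i)
  have he : Function.Injective e := e.toRingHom.injective
  obtain rfl : uu 0 = u := he ((huu 0).trans hu.symm)
  have tu : Transcendental Qb (uu 0) := fun h => hU (hu ▸ (isAlgebraic_algHom_iff e he).2 h)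
  have tv : Transcendental Qb v := fun h => hA (hv' ▸ (isAlgebraic_algHom_iff e he).2 h)
  obtain ⟨R, l, hR, d1, d2, hRv⟩ := rel_of_alg (hΩ.isAlgebraic v)
  obtain ⟨C, ρ, hC, hρ, hρ1, hMa⟩ := hB p q a hp hpq hc ha
  obtain ⟨C', ρ', hC', hρ', hρ1', hMb⟩ := hB p q b hp hpq hc hb
  obtain ⟨K, hK⟩ := hF p q (max C C') (max ρ ρ') hp (by omega) hc (hC.trans (le_max_left _ _))
    (hρ.trans_le (le_max_left _ _)) (max_lt hρ1 hρ1')
  obtain ⟨J₁, hJ⟩ := h1 p q a b hp hpq hc ha hb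
  let cc : Fin 3 → Qb := ![-a, -a, -b]
  let ww : Fin 3 → ℕ → Ω := ![uu, tt, tt']
  let W : Fin 3 → ℕ → ℕ → Qb := ![fun i ν => (D ν).u i, fun i ν => (D ν).t i, fun i ν => (D' ν).t i]
  have hW : ∀ m i, e (ww m i) = gm U (W m i) := fun m i => by
    fin_cases m
    exacts [huu i, htt i, htt' i]
  have hcc : ∀ m, cc m ≠ 0 := fun m => by
    fin_cases m
    exacts [neg_ne_zero.2 ha, neg_ne_zero.2 ha, neg_ne_zero.2 hb]
  have hch : ∀ m i, ww m (i + 1) ^ p = ww m i ^ q + algebraMap Qb Ω (cc m) := fun m i => by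
    refine he ?_
    rw [map_add, map_pow, map_pow, hW, hW, e.commutes]
    fin_cases m
    · exact (eq_sub_of_add_eq (c0 i)).trans (by rw [sub_eq_add_neg, ← map_neg]; rfl)
    · exact (eq_sub_of_add_eq (c1 i)).trans (by rw [sub_eq_add_neg, ← map_neg]; rfl)
    · exact (eq_sub_of_add_eq (c2 i)).trans (by rw [sub_eq_add_neg, ← map_neg]; rfl)
  let T : ∀ J, Fin 3 → Tw Qb p q J {uu 0, v} := fun J m =>
    { c := cc m
      κ := ![1, ξ, ξ'] m
      b := ![uu 0, uu 0, v] m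
      w := ww m
      hc := hcc m
      hκ := by fin_cases m; exacts [one_ne_zero, hξ0, hξ0']
      hb := by fin_cases m; exacts [Or.inl rfl, Or.inl rfl, Or.inr rfl]
      h0 := he (by
        rw [hW, map_mul, e.commutes]
        fin_cases m
        · exact (huu 0).symm.trans (by rw [← one_mul (e (uu 0)), ← map_one (algebraMap Qb (UP U))]; rfl)
        · exact hξ.trans (by rw [← huu 0]; rfl)
        · exact hξ'.trans (by rw [← hv']; rfl))
      hw := fun i _ => hch m i }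
  have hT : ∀ J m, MHyp p q (T J m).c (max C C') (max ρ ρ') 1 J := fun J m => by
    have h3 := (hMa J).mono (by linarith) hρ.le (le_max_left C C') (le_max_left ρ ρ') le_rfl le_rfl
    have h4 := (hMb J).mono (by linarith) hρ'.le (le_max_right C C') (le_max_right ρ ρ') le_rfl
      le_rfl
    fin_cases m
    exacts [h3, h3, h4]
  set α' := α + o + o' + α₁ with hα'
  have main : ∀ J, α' + K * (l + 1) ^ 3 + J₁ ≤ J → ∀ m i, α' + K * (l + 1) ^ 3 + J₁ ≤ i → i < J →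
      PowInd Qb ({uu 0, v} ∪ lv (ww m) i ∪ ⋃ m' ∈ Set.univ \ {m}, lv (ww m') J)
        (ww m (i + 1)) p := fun J hJ0 m => by
    obtain ⟨E, t, ht, -, h3, h4⟩ := hK Qb Ω (uu 0) v R l α' _ J 1 tu tv hΩ hR d1 d2 hRv
      Nat.one_le_two_pow (Nat.le_add_right _ J₁) hJ0 (Fin 3) (T J) (by simp) (hT J)
    refine h4 Set.univ (fun m _ m' _ hm hE => ?_) m trivial
    obtain ⟨j, hj, -, μ, m1, m2, m3⟩ := h3 m m' hE
    have m4 : ∀ᶠ ν in (U : Filter ℕ), W m' j ν = μ * W m t ν := by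
      have := congrArg e m3
      rw [map_mul, e.commutes] at this
      exact gm_eq.1 (((hW m' j).symm.trans this).trans (by rw [hW, gm_const, ← map_mul]; rfl))
    have m5 := same_of_mul hpq (hcc m') m1 m2 m4
    fin_cases m <;> fin_cases m'
    · exact hm rfl
    · exact e01 j t (by omega) m5
    · exact e02 j t (by omega) m5
    · exact e01 t j (by omega) m5.symm
    · exact hm rfl
    · have m6 := e12 t j (by omega) (by omega) m5
      refine hno ⟨j - o', by omega, μ, neg_injective ((mul_neg _ _).symm.trans m1),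
        neg_injective ((mul_neg _ _).symm.trans m2), ?_⟩
      rw [show j - o' + o' = j by omega, show j - o' + o = t by omega]
      exact m4
    · exact e02 t j (by omega) m5.symm
    · have m6 := e12 j t (by omega) (by omega) m5.symm
      have m7 : μ ^ p * b = a := neg_injective ((mul_neg _ _).symm.trans m1)
      have m8 : μ ^ q * b = a := neg_injective ((mul_neg _ _).symm.trans m2)
      have m9 : μ ≠ 0 := by
        rintro rfl
        rw [zero_pow hp0.ne', zero_mul] at m7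
        exact ha m7.symm
      refine hno ⟨t - o', by omega, μ⁻¹,
        by rw [← m7, inv_pow, inv_mul_cancel_left₀ (pow_ne_zero _ m9)],
        by rw [← m8, inv_pow, inv_mul_cancel_left₀ (pow_ne_zero _ m9)], ?_⟩
      rw [show t - o' + o' = t by omega, show t - o' + o = j by omega]
      exact m4.mono fun ν hν => ((inv_mul_eq_iff_eq_mul₀ m9).2 hν).symm
    · exact hm rfl
  have sub : ∀ (S : Set Ω) (m m' : Fin 3) (J J' : ℕ), m' ≠ m → J ≤ J' →
      ww m' '' Set.Iic J ⊆ S ∪ ⋃ m' ∈ Set.univ \ {m}, lv (ww m') J' := fun S m m' J J' hm hJ' =>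
    fun x hx => Or.inr (Set.mem_biUnion (x := m') ⟨trivial, hm⟩
      (Set.image_mono (Set.Iic_subset_Iic.2 hJ') hx))
  refine hJ U D D' o o' C₁ hM Ω (e : Ω →+* UP U) uu tt tt' (α' + K * (l + 1) ^ 3 + J₁)
    (Nat.le_add_left _ _) e.commutes huu htt htt' tu hΩ (fun J i hi => ?_) fun J i hi => ?_
  · refine PowInd.mono (Set.Subset.trans ?_ (subset_adjoin _ _))
      (main (J + i + 1) (by omega) 0 i hi (by omega))
    exact Set.union_subset (Set.union_subset (fun x hx => Or.inl (Or.inr hx))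
      (sub _ 0 1 _ _ (by decide) (by omega))) (sub _ 0 2 _ _ (by decide) (by omega))
  · refine PowInd.mono (Set.Subset.trans ?_ (subset_adjoin _ _))
      (main (J + i + 1) (by omega) 1 i hi (by omega))
    exact Set.union_subset (Set.union_subset (sub _ 1 0 _ _ (by decide) (by omega))
      fun x hx => Or.inl (Or.inr hx)) (sub _ 1 2 _ _ (by decide) (by omega))

end Pool.Agent.MP_09973c_nt.H43
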