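import Pool.Agent.MP_09973c_nt.H58.SpecF

/-!
Field theory of the ultrapower of the algebraic numbers.
-/

set_option autoImplicit false

namespace Pool.Agent.MP_09973c_nt.H43

open Polynomial Filter IntermediateField Pool.Agent.MP_09973c_nt.H58

section Alg

variable {K F : Type} [Field K] [Field F] [Algebra K F] {p q : ℕ} {w : ℕ → F} {c : F}

theorem alg_up (hp : 0 < p) (hc : IsAlgebraic K c) (hw : ∀ i, w (i + 1) ^ p + c = w i ^ q)
    (h0 : IsAlgebraic K (w 0)) (i : ℕ) : IsAlgebraic K (w i) := by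
  induction i with
  | zero => exact h0
  | succ i ih => exact IsAlgebraic.of_pow hp (eq_sub_of_add_eq (hw i) ▸ (ih.pow q).sub hc)

theorem alg_down (hq : 0 < q) (hc : IsAlgebraic K c) (hw : ∀ i, w (i + 1) ^ p + c = w i ^ q)
    (i : ℕ) (h : IsAlgebraic K (w i)) : IsAlgebraic K (w 0) := by
  induction i with
  | zero => exact h
  | succ i ih => exact ih (IsAlgebraic.of_pow hq (hw i ▸ (h.pow p).add hc))

end Alg

theorem map_ev2 {A B B' : Type} [CommRing A] [CommRing B] [CommRing B'] (ψ : A →+* B)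
    (φ : B →+* B') (R : A[X][X]) (z θ : B) :
    φ (ev2 ψ R z θ) = ev2 (φ.comp ψ) R (φ z) (φ θ) := by
  rw [ev2, ev2, hom_eval₂]
  congr 1
  exact RingHom.ext fun f => hom_eval₂ _ _ _ _

section Curve

variable {k F : Type} [Field k] [Field F] [Algebra k F]

theorem alg_of_rel {K : Type} [Field K] [Algebra k K] [Algebra K F] [IsScalarTower k K F]
    {x y : F} (hx : IsAlgebraic K x) (ht : Transcendental k x) {P : k[X][X]} (hP : P ≠ 0)
    (h : ev2 (algebraMap k F) P x y = 0) : IsAlgebraic K y := by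
  let M := algebraicClosure K F
  let φ : k[X] →+* M := eval₂RingHom (algebraMap k M) ⟨x, mem_algebraicClosure_iff.2 hx⟩
  have e : (algebraMap M F).comp φ = eval₂RingHom (algebraMap k F) x :=
    RingHom.ext fun f => by
      change algebraMap M F (f.eval₂ _ _) = _
      rw [hom_eval₂, show (algebraMap M F).comp (algebraMap k M) = algebraMap k F from
        (M.val.restrictScalars k).comp_algebraMap]
      rfl
  have hφ : Function.Injective φ := by
    refine Function.Injective.of_comp (f := algebraMap M F) ?_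
    rw [← RingHom.coe_comp, e]
    exact transcendental_iff_injective.1 ht
  have h1 : IsAlgebraic M y := ⟨P.map φ, by rwa [Ne, Polynomial.map_eq_zero_iff hφ], by
    rw [aeval_def, eval₂_map, e]; exact h⟩
  exact h1.restrictScalars K

theorem rel_of_alg {x y : F} (h : IsAlgebraic (adjoin k {x}) y) :
    ∃ (R : k[X][X]) (l : ℕ), R ≠ 0 ∧ R.natDegree ≤ 2 ^ l ∧ (∀ i, (R.coeff i).natDegree ≤ 2 ^ l) ∧
      ev2 (algebraMap k F) R x y = 0 := by
  rw [isAlgebraic_adjoin_iff] at h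
  let _ : Algebra k[X] F := (eval₂RingHom (algebraMap k F) x).toAlgebra
  let f : k[X] →+* Algebra.adjoin k {x} :=
    (eval₂RingHom (algebraMap k F) x).codRestrict _ fun g => by
      rw [Algebra.adjoin_singleton_eq_range_aeval]; exact ⟨g, rfl⟩
  have hf : Function.Surjective f := by
    rintro ⟨z, hz⟩
    rw [Algebra.adjoin_singleton_eq_range_aeval] at hz
    obtain ⟨g, rfl⟩ := hz
    exact ⟨g, rfl⟩
  obtain ⟨R, h0, h1⟩ : IsAlgebraic k[X] y :=
    IsAlgebraic.of_ringHom_of_comp_eq f (RingHom.id F) h hf Function.injective_id rfl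
  refine ⟨R, R.natDegree + R.support.sup fun i => (R.coeff i).natDegree, h0,
    (Nat.le_add_right _ _).trans Nat.lt_two_pow_self.le, fun i => ?_, h1⟩
  refine le_trans ?_ ((Nat.le_add_left _ _).trans Nat.lt_two_pow_self.le)
  by_cases hi : i ∈ R.support
  · exact Finset.le_sup (f := fun i => (R.coeff i).natDegree) hi
  · rw [notMem_support_iff.1 hi, natDegree_zero]; exact Nat.zero_le _

theorem exists_Om [IsAlgClosed F] (u : F) :
    ∃ (Ω : Type) (_ : Field Ω) (_ : IsAlgClosed Ω) (_ : Algebra k Ω) (e : Ω →ₐ[k] F) (u' : Ω),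
      e u' = u ∧ Algebra.IsAlgebraic (adjoin k {u'}) Ω ∧
      ∀ x, IsAlgebraic (adjoin k {u}) x → ∃ x', e x' = x := by
  let K := adjoin k {u}
  let Ω := algebraicClosure K F
  have hu : u ∈ Ω := mem_algebraicClosure_iff.2
    (isAlgebraic_algebraMap (⟨u, mem_adjoin_simple_self k u⟩ : K))
  let e : Ω →ₐ[k] F := Ω.val.restrictScalars k
  let u' : Ω := ⟨u, hu⟩
  have hm : (adjoin k {u'}).map e = K := by rw [adjoin_map, Set.image_singleton]; rfl
  let f : adjoin k {u'} →+* K :=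
    (e.toRingHom.comp (adjoin k {u'}).val.toRingHom).codRestrict K fun x =>
      hm.le (⟨x.1, x.2, rfl⟩ : e x.1 ∈ (adjoin k {u'}).map e)
  have hf : Function.Surjective f := by
    rintro ⟨z, hz⟩
    rw [← hm] at hz
    obtain ⟨g, hg, rfl⟩ := hz
    exact ⟨⟨g, hg⟩, rfl⟩
  refine ⟨Ω, inferInstance, IsAlgClosure.isAlgClosed K, inferInstance, e, u', rfl,
    ⟨fun x => ?_⟩, fun x hx => ⟨⟨x, mem_algebraicClosure_iff.2 hx⟩, rfl⟩⟩
  exact IsAlgebraic.of_ringHom_of_comp_eq f e.toRingHom (mem_algebraicClosure_iff.1 x.2) hf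
    e.toRingHom.injective rfl

end Curve

/-- The ultrapower of the algebraic numbers. -/
def UP (U : Ultrafilter ℕ) : Type := Germ (U : Filter ℕ) Qb

variable {U : Ultrafilter ℕ}

noncomputable instance : Field (UP U) := Germ.instField

/-- The class of a sequence. -/
noncomputable def gm (U : Ultrafilter ℕ) : (ℕ → Qb) →+* UP U := Germ.coeRingHom (U : Filter ℕ)

noncomputable instance : Algebra Qb (UP U) := ((gm U).comp (Pi.constRingHom ℕ Qb)).toAlgebra

theorem gm_eq {f g : ℕ → Qb} : gm U f = gm U g ↔ ∀ᶠ ν in (U : Filter ℕ), f ν = g ν := Germ.coe_eq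

theorem gm_const (c : Qb) : algebraMap Qb (UP U) c = gm U fun _ => c := rfl

theorem gm_surj : Function.Surjective (gm U) := fun x => Germ.inductionOn x fun f => ⟨f, rfl⟩

instance : IsAlgClosed (UP U) := by
  refine IsAlgClosed.of_exists_root _ fun P hm hi => ?_
  obtain ⟨Q, rfl, h1, h2⟩ := lifts_and_natDegree_eq_and_monic (mem_lifts_of_surjective gm_surj P) hm
  have h3 : ∀ ν, ∃ x, (Q.map (Pi.evalRingHom (fun _ => Qb) ν)).IsRoot x := fun ν =>
    IsAlgClosed.exists_root _ (natDegree_pos_iff_degree_pos.1 (by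
      rw [h2.natDegree_map, h1]; exact hi.natDegree_pos)).ne'
  choose x hx using h3
  refine ⟨gm U x, ?_⟩
  rw [eval_map, eval₂_at_apply, ← (gm U).map_zero]
  congr 1
  funext ν
  have := hx ν
  rwa [IsRoot, eval_map, show x ν = Pi.evalRingHom (fun _ => Qb) ν x from rfl,
    eval₂_at_apply] at this

theorem gm_ev2 (R : Qb[X][X]) (f g : ℕ → Qb) : ev2 (algebraMap Qb (UP U)) R (gm U f) (gm U g) =
    gm U fun ν => ev2 (RingHom.id Qb) R (f ν) (g ν) := by
  refine (map_ev2 (Pi.constRingHom ℕ Qb) (gm U) R f g).symm.trans ?_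
  congr 1
  funext ν
  exact map_ev2 (Pi.constRingHom ℕ Qb) (Pi.evalRingHom (fun _ => Qb) ν) R f g

theorem const_of_finite {S : Set Qb} (hS : S.Finite) {f : ℕ → Qb}
    (h : ∀ᶠ ν in (U : Filter ℕ), f ν ∈ S) : ∃ y ∈ S, ∀ᶠ ν in (U : Filter ℕ), f ν = y :=
  (Ultrafilter.eventually_exists_mem_iff hS).1 (h.mono fun ν hν => ⟨f ν, hν, rfl⟩)

theorem const_of_alg {f : ℕ → Qb} (h : IsAlgebraic Qb (gm U f)) :
    ∃ y, ∀ᶠ ν in (U : Filter ℕ), f ν = y := by
  obtain ⟨y, hy⟩ := minpoly.mem_range_of_degree_eq_one Qb _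
    (IsAlgClosed.degree_eq_one_of_irreducible Qb (minpoly.irreducible h.isIntegral))
  exact ⟨y, gm_eq.1 hy.symm⟩

theorem gm_chain {p q : ℕ} {c : Qb} {w : ℕ → ℕ → Qb} {n : ℕ → ℕ}
    (hn : ∀ J, ∀ᶠ ν in (U : Filter ℕ), J ≤ n ν) (h : ∀ ν, Bwd p q c (n ν) (w ν)) (i : ℕ) :
    (gm U fun ν => w ν (i + 1)) ^ p + algebraMap Qb _ c = (gm U fun ν => w ν i) ^ q := by
  rw [gm_const, ← map_pow, ← map_pow, ← map_add, gm_eq]
  exact (hn (i + 1)).mono fun ν hν => h ν i hν

theorem gm_chain' {p q : ℕ} {c : Qb} (D : ℕ → Dat p q c) (i : ℕ) :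
    (gm U fun ν => (D ν).u (i + 1)) ^ p + algebraMap Qb _ c = (gm U fun ν => (D ν).u i) ^ q := by
  rw [gm_const, ← map_pow, ← map_pow, ← map_add, gm_eq]
  exact Eventually.of_forall fun ν => (D ν).hu i

theorem gm_xi {p q : ℕ} (hp : 0 < p) {c : Qb} (D : ℕ → Dat p q c) : ∃ ξ : Qb, ξ ≠ 0 ∧
    (gm U fun ν => (D ν).t 0) = algebraMap Qb _ ξ * gm U fun ν => (D ν).u 0 := by
  obtain ⟨ξ, h1, h2⟩ := const_of_finite (U := U) (finite_roots_one hp) (f := fun ν => (D ν).ξ)
    (Eventually.of_forall fun ν => (D ν).hξ)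
  refine ⟨ξ, ?_, ?_⟩
  · rintro rfl
    exact zero_ne_one ((zero_pow hp.ne').symm.trans h1)
  · rw [gm_const, ← map_mul, gm_eq]
    exact h2.mono fun ν hν => by rw [(D ν).ht0, hν]; rfl

end Pool.Agent.MP_09973c_nt.H43
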